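import Pool.Agent.Q98.SPN.Stm

/-! Package LR of Project GSP: nets of low rank matrices. -/

set_option autoImplicit false

namespace Pool.Agent.U310.GSP.LR

open Pool.Agent.Q98.SPN Finset
open scoped Matrix.Norms.L2Operator Matrix

theorem t_LR : S_NET → S_LR := by
  classical
  intro hN d r k s hs
  have hdim : Module.finrank ℝ (Matrix (Fin d) (Fin r) ℂ) = 2 * (d * r) := by
    rw [finrank_real_of_complex, Module.finrank_matrix]
    simp
  have : FiniteDimensional ℝ (Matrix (Fin d) (Fin r) ℂ) := FiniteDimensional.complexToReal _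
  obtain ⟨F1, hF1, h1⟩ := hN (Matrix (Fin d) (Fin r) ℂ) (2 * k + 2) (s / 2 ^ (k + 1)) (by positivity)
  obtain ⟨F2, hF2, h2⟩ := hN (Matrix (Fin d) (Fin r) ℂ) (2 * k + 3) (1 / 2 ^ (2 * k + 3)) (by positivity)
  refine ⟨(F1 ×ˢ F2).image (fun p => p.1 * p.2ᴴ), ?_, ?_⟩
  · refine Finset.card_image_le.trans ?_
    rw [Finset.card_product]
    calc F1.card * F2.card ≤ 5 ^ (Module.finrank ℝ (Matrix (Fin d) (Fin r) ℂ) * (2 * k + 2)) *
          5 ^ (Module.finrank ℝ (Matrix (Fin d) (Fin r) ℂ) * (2 * k + 3)) := Nat.mul_le_mul hF1 hF2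
      _ = 5 ^ (2 * (d * r) * (4 * k + 5)) := by
          rw [hdim, ← pow_add]
          congr 1
          ring
  · intro W V hW hV
    obtain ⟨W', hW', hWW⟩ := h1 W (by
      refine hW.trans (le_of_eq ?_)
      have e3 : (2 : ℝ) ^ (2 * k + 2) = 2 ^ (k + 1) * 2 ^ (k + 1) := by rw [← pow_add]; congr 1; ring
      rw [e3]
      field_simp)
    obtain ⟨V', hV', hVV⟩ := h2 V (by
      refine hV.trans (le_of_eq ?_)
      field_simp)
    refine ⟨W' * V'ᴴ, Finset.mem_image.2 ⟨(W', V'), Finset.mem_product.2 ⟨hW', hV'⟩, rfl⟩, ?_⟩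
    have e : W * Vᴴ - W' * V'ᴴ = (W - W') * Vᴴ + W' * (V - V')ᴴ := by
      rw [Matrix.conjTranspose_sub, Matrix.sub_mul, Matrix.mul_sub]
      abel
    have hs1 : s / 2 ^ (k + 1) ≤ 2 ^ (k + 1) * s := by
      rw [div_le_iff₀ (by positivity)]
      have : (1 : ℝ) ≤ 2 ^ (k + 1) := one_le_pow₀ (by norm_num)
      have h3 : (1 : ℝ) ≤ 2 ^ (k + 1) * 2 ^ (k + 1) := by nlinarith
      nlinarith
    have hW'n : ‖W'‖ ≤ 2 ^ (k + 2) * s := by
      have h3 : ‖W'‖ ≤ ‖W‖ + ‖W - W'‖ := by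
        have := norm_sub_le W (W - W')
        rwa [sub_sub_cancel] at this
      calc ‖W'‖ ≤ ‖W‖ + ‖W - W'‖ := h3
        _ ≤ 2 ^ (k + 1) * s + 2 ^ (k + 1) * s := add_le_add hW (hWW.trans hs1)
        _ = 2 ^ (k + 2) * s := by ring
    have hVn : ‖(V - V')ᴴ‖ ≤ 1 / 2 ^ (2 * k + 3) := by
      rw [Matrix.l2_opNorm_conjTranspose]; exact hVV
    have hVc : ‖Vᴴ‖ ≤ 1 := by
      rw [Matrix.l2_opNorm_conjTranspose]; exact hV
    rw [e]
    calc ‖(W - W') * Vᴴ + W' * (V - V')ᴴ‖ ≤ ‖(W - W') * Vᴴ‖ + ‖W' * (V - V')ᴴ‖ := norm_add_le _ _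
      _ ≤ ‖W - W'‖ * ‖Vᴴ‖ + ‖W'‖ * ‖(V - V')ᴴ‖ := add_le_add (Matrix.l2_opNorm_mul _ _) (Matrix.l2_opNorm_mul _ _)
      _ ≤ s / 2 ^ (k + 1) * 1 + (2 ^ (k + 2) * s) * (1 / 2 ^ (2 * k + 3)) := by
          gcongr
      _ = s / 2 ^ k := by
          have e3 : (2 : ℝ) ^ (2 * k + 3) = 2 ^ (k + 2) * 2 ^ (k + 1) := by rw [← pow_add]; congr 1; ring
          have e4 : (2 : ℝ) ^ (k + 1) = 2 ^ k * 2 := pow_succ 2 k
          rw [e3, e4]
          field_simp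
          norm_num

end Pool.Agent.U310.GSP.LR
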